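import Pool.Agent.H901R3.MS.AllPS

/-!
# Cyclic covers, of every degree, of products of CM elliptic curves

`E_i : y² = x³ + a_i x` or `y² = x³ + b_i` (`i = 1, …, r`) are elliptic curves over `ℚ` of arbitrary
rank, embedded as plane cubics.  For forms `f_s` (`s ∈ S`) with integer coefficients of multidegree
`(d_1, …, d_r)`, `m ∣ d_i`, in the homogeneous coordinates `V_1, …, V_r` of the `r` cubics, consider
the cyclic covers of degree `m`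

  `X_c : w ^ m = Σ_s c_s f_s (V_1, …, V_r)`, `V_i ∈ E_i`, `c : S → ℤ`, `|c_s| ≤ H`.

For example: all monomials of multidegree `(d_1, …, d_r)`, `d_i > 0`; then the general `X_c` is a
smooth projective variety of dimension `r`, of general type, branched along a smooth ample divisor.

* Part 1 and 3: if `l ∣ m` is a prime number (`l ≠ 3` if a curve with `a_i = 0` occurs; `l = 2` or
  odd), the number of the `X_c` with a rational point is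
  `≤ (2H+1)^|S| exp(-c₀ log H / log log H)`: `100 %` of these varieties have no rational point.
* Part 2 and 4: for even `m` it is `O(H ^ (|S| - 1/4 + ε))`.
-/

set_option autoImplicit false

namespace Pool.Agent.Results.MP_2ae8fe_ag.CyclicCoversEveryDegree

open Pool.Agent.H901R3.MS

/-- the coefficient vectors `c`, `|c s| ≤ H`, for which the cyclic cover
`w ^ m = Σ_s c_s f_s (V_1, …, V_r)` of `E_1 × … × E_r` has a rational point; `OnE a b V` says that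
`V ≠ 0` and `V₁² V₂ = V₀³ + a V₀ V₂² + b V₂³`, and `ev f V` is the value of the form `f` -/
def Bad {r : ℕ} (a b : Fin r → ℤ) (m : ℕ) {S : Type} [Fintype S] (f : S → (Expo r →₀ ℤ))
    (H : ℕ) : Set (S → ℤ) :=
  {c | (∀ s, |c s| ≤ H) ∧ ∃ (V : Fin r → Fin 3 → ℚ) (w : ℚ),
    (∀ i, OnE (a i) (b i) (V i)) ∧ w ^ m = ∑ s, (c s : ℚ) * ev (f s) V}

/-- the same for the system of all the monomials `e ∈ S` -/
def BadMon {r : ℕ} (a b : Fin r → ℤ) (m : ℕ) (S : Finset (Fin r → Fin 3 → ℕ)) (H : ℕ) :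
    Set (S → ℤ) :=
  {c | (∀ e, |c e| ≤ H) ∧ ∃ (V : Fin r → Fin 3 → ℚ) (w : ℚ),
    (∀ i, OnE (a i) (b i) (V i)) ∧
      w ^ m = ∑ e : S, (c e : ℚ) * ∏ i, ∏ j, V i j ^ e.1 i j}

theorem bad_eq {r : ℕ} (a b : Fin r → ℤ) (m : ℕ) {S : Type} [Fintype S] [DecidableEq S]
    (f : S → (Expo r →₀ ℤ)) (H : ℕ) :
    Bad a b m f H = {c : S → ℤ | c ∈ Box S H ∧ HasPt a b m f c} := by
  ext c
  have e1 : c ∈ Box S H ↔ ∀ e, |c e| ≤ H := by
    unfold Box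
    rw [Fintype.mem_piFinset]
    refine forall_congr' fun e => ?_
    rw [Finset.mem_Icc, abs_le]
  exact (and_congr e1 Iff.rfl).symm

theorem badMon_eq {r : ℕ} (a b : Fin r → ℤ) (m : ℕ) (S : Finset (Fin r → Fin 3 → ℕ)) (H : ℕ) :
    BadMon a b m S H = Bad a b m (W_ZA.fS S) H := by
  ext c
  have e2 : ∀ V : Fin r → Fin 3 → ℚ, (∑ s, (c s : ℚ) * ev (W_ZA.fS S s) V) =
      ∑ e : S, (c e : ℚ) * ∏ i, ∏ j, V i j ^ e.1 i j := by
    intro V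
    refine Finset.sum_congr rfl fun e _ => ?_
    rw [W_ZA.ev_fS]
    rfl
  constructor
  · rintro ⟨hc, V, w, hV, hw⟩
    exact ⟨hc, V, w, hV, hw.trans (e2 V).symm⟩
  · rintro ⟨hc, V, w, hV, hw⟩
    exact ⟨hc, V, w, hV, hw.trans (e2 V)⟩

theorem part1 (r : ℕ) (a b : Fin r → ℤ)
    (hE : ∀ i, (b i = 0 ∧ a i ≠ 0) ∨ (a i = 0 ∧ b i ≠ 0)) (l m : ℕ) (hl : l.Prime) (hlm : l ∣ m)
    (hm : 1 ≤ m) (d : Fin r → ℕ) (hd : ∀ i, m ∣ d i) (S : Type) [Fintype S]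
    (f : S → (Expo r →₀ ℤ)) (hf : ∀ s, Homog (f s) d) (Q u : ℕ) (hQ : 1 ≤ Q) (hu : Nat.Coprime u Q)
    (hOK : ∀ p : ℕ, p % Q = u % Q →
      (∀ i, b i = 0 → p % 4 = 3) ∧ (∀ i, a i = 0 → p % 3 = 2) ∧ (l = 2 ∨ p % l = 1))
    (hN : ∃ p₁ : ℕ, ∀ (p : ℕ) (_ : Fact p.Prime), p₁ ≤ p → p % Q = u % Q →
      ∀ P : (i : Fin r) → Pt (a i : ZMod p) (b i : ZMod p), ∃ s, ev (f s) (fun i => rep (P i)) ≠ 0) :
    ∃ c₀ : ℝ, 0 < c₀ ∧ ∃ H₀ : ℕ, ∀ H : ℕ, H₀ ≤ H →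
      ((Bad a b m f H).ncard : ℝ) ≤ (2 * (H : ℝ) + 1) ^ Fintype.card S *
        Real.exp (-c₀ * (Real.log H / Real.log (Real.log H))) := by
  classical
  obtain ⟨p₁, hp₁⟩ := hN
  obtain ⟨c₀, hc₀, H₀, h⟩ := gen r a b hE l m hl hlm hm S f d hd hf Q u hQ hu hOK
    ⟨p₁, fun p hp h1 h2 => hp₁ p ⟨hp⟩ h1 h2⟩
  refine ⟨c₀, hc₀, H₀, fun H hH => ?_⟩
  rw [bad_eq]
  exact h H hH

theorem part2 (r : ℕ) (a b : Fin r → ℤ)
    (hE : ∀ i, (b i = 0 ∧ a i ≠ 0) ∨ (a i = 0 ∧ b i ≠ 0)) (m : ℕ) (hm : 2 ∣ m)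
    (d : Fin r → ℕ) (hd : ∀ i, m ∣ d i) (S : Type) [Fintype S]
    (f : S → (Expo r →₀ ℤ)) (hf : ∀ s, Homog (f s) d) (M : ℕ) (hM : 1 ≤ M)
    (hN : ∃ p₁ : ℕ, ∀ (p : ℕ) (_ : Fact p.Prime), p₁ ≤ p → M ∣ p + 1 →
      ∀ P : (i : Fin r) → Pt (a i : ZMod p) (b i : ZMod p), ∃ s, ev (f s) (fun i => rep (P i)) ≠ 0)
    (ε : ℝ) (hε : 0 < ε) :
    ∃ C : ℝ, ∀ H : ℕ, 1 ≤ H →
      ((Bad a b m f H).ncard : ℝ) ≤ C * (H : ℝ) ^ ((Fintype.card S : ℝ) - 1 / 4 + ε) := by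
  classical
  obtain ⟨p₁, hp₁⟩ := hN
  obtain ⟨C, hC⟩ := mainPS r a b hE S f d (fun i => hm.trans (hd i)) hf (12 * M) p₁.factorial
    (by omega) (Nat.factorial_pos _) (dvd_mul_right 12 M)
    (fun p hp h1 h2 => by
      refine hp₁ p ⟨hp⟩ ?_ ((dvd_mul_left M 12).trans h2)
      by_contra h
      exact h1 (Nat.dvd_factorial hp.pos (by omega))) ε hε
  refine ⟨C, fun H hH => le_trans ?_ (hC H hH)⟩
  rw [← bad_eq]
  have hfin : (Bad a b 2 f H).Finite := by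
    rw [bad_eq]
    exact (Box S H).finite_toSet.subset fun c hc => hc.1
  norm_cast
  refine Set.ncard_le_ncard ?_ hfin
  rintro c ⟨hc, V, w, hV, hw⟩
  obtain ⟨k, hk⟩ := hm
  exact ⟨hc, V, w ^ k, hV, by rw [← pow_mul, mul_comm, ← hk, hw]⟩

theorem result :
    -- Part 1: linear families of cyclic covers of any degree `m`, `l ∣ m` prime
    (∀ (r : ℕ) (a b : Fin r → ℤ), (∀ i, (b i = 0 ∧ a i ≠ 0) ∨ (a i = 0 ∧ b i ≠ 0)) →
      ∀ l m : ℕ, l.Prime → l ∣ m → 1 ≤ m → ∀ d : Fin r → ℕ, (∀ i, m ∣ d i) →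
      ∀ (S : Type) [Fintype S] (f : S → (Expo r →₀ ℤ)), (∀ s, Homog (f s) d) →
      ∀ Q u : ℕ, 1 ≤ Q → Nat.Coprime u Q →
      (∀ p : ℕ, p % Q = u % Q →
        (∀ i, b i = 0 → p % 4 = 3) ∧ (∀ i, a i = 0 → p % 3 = 2) ∧ (l = 2 ∨ p % l = 1)) →
      (∃ p₁ : ℕ, ∀ (p : ℕ) (_ : Fact p.Prime), p₁ ≤ p → p % Q = u % Q →
        ∀ P : (i : Fin r) → Pt (a i : ZMod p) (b i : ZMod p),
          ∃ s, ev (f s) (fun i => rep (P i)) ≠ 0) →
      ∃ c₀ : ℝ, 0 < c₀ ∧ ∃ H₀ : ℕ, ∀ H : ℕ, H₀ ≤ H →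
        ((Bad a b m f H).ncard : ℝ) ≤ (2 * (H : ℝ) + 1) ^ Fintype.card S *
          Real.exp (-c₀ * (Real.log H / Real.log (Real.log H)))) ∧
    -- Part 2: power saving for even `m`
    (∀ (r : ℕ) (a b : Fin r → ℤ), (∀ i, (b i = 0 ∧ a i ≠ 0) ∨ (a i = 0 ∧ b i ≠ 0)) →
      ∀ m : ℕ, 2 ∣ m → ∀ d : Fin r → ℕ, (∀ i, m ∣ d i) →
      ∀ (S : Type) [Fintype S] (f : S → (Expo r →₀ ℤ)), (∀ s, Homog (f s) d) →
      ∀ M : ℕ, 1 ≤ M →
      (∃ p₁ : ℕ, ∀ (p : ℕ) (_ : Fact p.Prime), p₁ ≤ p → M ∣ p + 1 →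
        ∀ P : (i : Fin r) → Pt (a i : ZMod p) (b i : ZMod p),
          ∃ s, ev (f s) (fun i => rep (P i)) ≠ 0) →
      ∀ ε : ℝ, 0 < ε → ∃ C : ℝ, ∀ H : ℕ, 1 ≤ H →
        ((Bad a b m f H).ncard : ℝ) ≤ C * (H : ℝ) ^ ((Fintype.card S : ℝ) - 1 / 4 + ε)) ∧
    -- systems of monomials containing the pure ones, for example complete linear systems
    (∀ (r : ℕ) (a b : Fin r → ℤ), (∀ i, (b i = 0 ∧ a i ≠ 0) ∨ (a i = 0 ∧ b i ≠ 0)) →
      ∀ m : ℕ, 2 ≤ m → ∀ d : Fin r → ℕ, (∀ i, m ∣ d i) →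
      ∀ S : Finset (Fin r → Fin 3 → ℕ), (∀ e ∈ S, ∀ i, ∑ j, e i j = d i) →
      (∀ σ : Fin r → Fin 3, (fun i j => if j = σ i then d i else 0) ∈ S) →
      -- Part 3: any `m`, which is not a power of `3` if a curve `y² = x³ + b_i` occurs
      (((∀ i, a i ≠ 0) ∨ ∀ k, m ≠ 3 ^ k) →
        ∃ c₀ : ℝ, 0 < c₀ ∧ ∃ H₀ : ℕ, ∀ H : ℕ, H₀ ≤ H →
          ((BadMon a b m S H).ncard : ℝ) ≤ (2 * (H : ℝ) + 1) ^ S.card *
            Real.exp (-c₀ * (Real.log H / Real.log (Real.log H)))) ∧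
      -- Part 4: power saving for even `m`
      (2 ∣ m → ∀ ε : ℝ, 0 < ε → ∃ C : ℝ, ∀ H : ℕ, 1 ≤ H →
        ((BadMon a b m S H).ncard : ℝ) ≤ C * (H : ℝ) ^ ((S.card : ℝ) - 1 / 4 + ε))) := by
  refine ⟨?_, ?_, ?_⟩
  · intro r a b hE l m hl hlm hm d hd S _ f hf Q u hQ hu hOK hN
    exact part1 r a b hE l m hl hlm hm d hd S f hf Q u hQ hu hOK hN
  · intro r a b hE m hm d hd S _ f hf M hM hN ε hε
    exact part2 r a b hE m hm d hd S f hf M hM hN ε hε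
  · intro r a b hE m hm d hd S hS hσ
    constructor
    · intro h3
      have hl : ∃ l : ℕ, l.Prime ∧ l ∣ m ∧ (l = 3 → ∀ i, a i ≠ 0) := by
        rcases h3 with h3 | h3
        · exact ⟨m.minFac, Nat.minFac_prime (by omega), Nat.minFac_dvd m, fun _ => h3⟩
        · by_contra hc
          push Not at hc
          refine h3 _ (Nat.eq_prime_pow_of_unique_prime_dvd (p := 3) (by omega) ?_)
          intro q hq hqm
          exact (hc q hq hqm).1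
      obtain ⟨l, hl, hlm, hl3⟩ := hl
      obtain ⟨Q, u, hQ, hu, hOK⟩ := t_RES r a b hE l hl hl3
      obtain ⟨c₀, hc₀, H₀, h⟩ := part1 r a b hE l m hl hlm (by omega) d hd S (W_ZA.fS S)
        (W_ZA.homog_fS hS) Q u hQ hu hOK
        ⟨0, fun p hp _ _ => @W_ZA.noZero r a b d S hσ p hp⟩
      refine ⟨c₀, hc₀, H₀, fun H hH => ?_⟩
      rw [badMon_eq]
      have := h H hH
      rwa [Fintype.card_coe] at this
    · intro h2 ε hε
      obtain ⟨C, hC⟩ := part2 r a b hE m h2 d hd S (W_ZA.fS S) (W_ZA.homog_fS hS) 1 le_rfl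
        ⟨0, fun p hp _ _ => @W_ZA.noZero r a b d S hσ p hp⟩ ε hε
      refine ⟨C, fun H hH => ?_⟩
      rw [badMon_eq]
      have := hC H hH
      rwa [Fintype.card_coe] at this

end Pool.Agent.Results.MP_2ae8fe_ag.CyclicCoversEveryDegree
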